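import Pool.Agent.Q193.MC.Fin
import Pool.Agent.Q193.MC.Conn

/-!
# The stabiliser of a map from a sphere with four holes to the circle

For the sphere with four holes `surf` (an annulus without two discs) and the map
`angle : surf → S¹`, `z ↦ z / |z|`, the stabiliser `MCG(angle)` in the mapping class group has
infinitely generated first homology, so it is not of finite homological type.
-/

set_option autoImplicit false

open Pool.Agent.Q193.MC

namespace Pool.Agent.Results.MP_988b7a_gt.InfinitelyGenerated

/-- **The stabiliser of a map to a bouquet of circles need not have finite homological type.** -/
theorem result :
    IsCompact surf ∧ IsConnected surf ∧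
    ¬ FinGenH1 (StabGroup surf bdry marks marks_subset angle) ∧
    ¬ FiniteHomologicalType (StabGroup surf bdry marks marks_subset angle) :=
  ⟨surf_compact, surf_connected, not_finite_H1', not_fht'⟩

end Pool.Agent.Results.MP_988b7a_gt.InfinitelyGenerated
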